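import Pool.Agent.H369.TH.Stm

/-! The spaces of theta functions: dimensions. -/

set_option autoImplicit false

namespace Pool.Agent.H124.TH

open Pool.Agent.H369.TH

section
variable {Γ K : Type} [AddCommGroup Γ] [LinearOrder Γ] [IsOrderedAddMonoid Γ] [Field K]

theorem big_pos {P : Γ} (hP : Big P) : 0 < P := by
  by_contra hn
  have hn' : P ≤ 0 := not_lt.1 hn
  have hfin := hP 0 0
  apply Set.infinite_univ (α := ℤ)
  refine hfin.subset fun m _ => ?_
  show (m * (m - 1) / 2) • P + m • (0 : Γ) ≤ 0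
  rw [smul_zero, add_zero]
  have h0 : 0 ≤ m * (m - 1) / 2 := by
    apply Int.ediv_nonneg _ (by norm_num)
    rcases le_or_gt m 0 with h | h
    · nlinarith
    · nlinarith
  exact smul_nonpos_of_nonneg_of_nonpos h0 hn'

theorem tri_nonneg (m : ℤ) : 0 ≤ m * (m - 1) / 2 := by
  apply Int.ediv_nonneg _ (by norm_num)
  rcases le_or_gt m 0 with h | h
  · nlinarith
  · nlinarith

theorem tri_succ (k : ℤ) : (k + 1) * (k + 1 - 1) / 2 = k * (k - 1) / 2 + k := by
  have : (k + 1) * (k + 1 - 1) = k * (k - 1) + k * 2 := by ring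
  rw [this, Int.add_mul_ediv_right _ _ (by norm_num)]

theorem big_mul {P : Γ} (hP : Big P) (e : ℤ) (he : 0 < e) (s a : Γ) :
    {k : ℤ | (e * (k * (k - 1) / 2)) • P + k • s ≤ a}.Finite := by
  refine (hP s a).subset fun k hk => ?_
  simp only [Set.mem_ofPred_eq] at hk ⊢
  refine le_trans (add_le_add_left ?_ _) hk
  apply zsmul_le_zsmul_left (big_pos hP).le
  have := tri_nonneg k
  nlinarith

theorem big_add {P : Γ} (hP : Big P) : Big (P + P) := by
  intro s a
  refine (big_mul hP 2 (by norm_num) s a).subset fun k hk => ?_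
  simp only [Set.mem_ofPred_eq] at hk ⊢
  rw [← two_zsmul, smul_smul, mul_comm] at hk
  exact hk

theorem co_one (m : ℤ) : co (1 : Ent Γ K) m = if m = 0 then 1 else 0 := by
  ext a
  rw [coeff_co]
  have : ((1 : Ent Γ K)).1 0 = 1 := rfl
  rw [this, cf_one]
  split_ifs with h1 h2 h2
  · rw [h1.1, HahnSeries.coeff_one, if_pos rfl]
  · exact absurd h1.2 h2
  · rw [HahnSeries.coeff_one, if_neg (fun h => h1 ⟨h, h2⟩)]
  · rfl

theorem co_zero (m : ℤ) : co (0 : Ent Γ K) m = 0 := by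
  ext a
  rw [coeff_co]
  exact cf_zero a m

theorem co_mkE (κ : ℤ → K) (w : ℤ → Γ) (h : ∀ s a : Γ, {m : ℤ | w m + m • s ≤ a}.Finite) (m : ℤ) :
    co (mkE κ w h) m = HahnSeries.single (w m) (κ m) := by
  classical
  ext a
  rw [coeff_co, cf_mkE, smul_zero, add_zero, HahnSeries.coeff_single]
  by_cases h1 : w m = a
  · rw [if_pos h1, if_pos h1.symm]
  · rw [if_neg h1, if_neg (fun h => h1 h.symm)]

theorem cc_inj {a b : Pt Γ K} (h : cc a = cc b) : a = b := by
  classical
  have h1 : (cc b).coeff a.v = (a.2 : K) := by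
    rw [← h, cc, HahnSeries.coeff_single_same]
  have h2 : a.v = b.v := by
    by_contra hne
    rw [cc, HahnSeries.coeff_single_of_ne hne] at h1
    exact a.2.ne_zero h1.symm
  rw [h2, cc, HahnSeries.coeff_single_same] at h1
  apply Prod.ext
  · exact h2
  · exact Units.ext h1.symm

omit [LinearOrder Γ] [IsOrderedAddMonoid Γ] in
theorem v_qq_pow (P : Γ) (k : ℤ) : Pt.v (qq P ^ k : Pt Γ K) = k • P := rfl

omit [LinearOrder Γ] [IsOrderedAddMonoid Γ] in
theorem qq_pow_snd (P : Γ) (k : ℤ) : (qq P ^ k : Pt Γ K).2 = 1 := by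
  show (1 : Kˣ) ^ k = 1
  exact one_zpow k

theorem cc_qq_pow (P : Γ) (k : ℤ) : cc (qq P ^ k : Pt Γ K) = HahnSeries.single (k • P) (1 : K) := by
  rw [cc, v_qq_pow, qq_pow_snd]
  rfl

theorem qq_pow_inj {P : Γ} (hP : 0 < P) {k l : ℤ} (h : (qq P ^ k : Pt Γ K) = qq P ^ l) : k = l := by
  have h1 : k • P = l • P := by rw [← v_qq_pow (K := K), h, v_qq_pow]
  exact (zsmul_left_strictMono hP).injective h1

theorem mem_Th_iff (h : S_rules) (P : Γ) (e : ℤ) (c : Pt Γ K) (f : Ent Γ K) : f ∈ Th P e c ↔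
    ∀ m : ℤ, cc c * co f (m + e) = cc (qq P ^ m) * co f m := by
  obtain ⟨-, hext, -, hcst, hmono, hsg, -, -, -, -, -, -⟩ := h Γ K
  rw [mem_Th]
  constructor
  · intro hf m
    have h1 := congrArg (fun g => co g m) hf
    simp only [mul_assoc] at h1
    rw [hsg, hcst, hmono, sub_neg_eq_add] at h1
    exact h1.symm
  · intro hf
    apply hext
    intro m
    rw [hsg, mul_assoc, hcst, hmono, sub_neg_eq_add]
    exact (hf m).symm

theorem mul_mem_Th (h : S_rules) (P : Γ) (e e' : ℤ) (c c' : Pt Γ K) (f f' : Ent Γ K)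
    (hf : f ∈ Th P e c) (hf' : f' ∈ Th P e' c') : f * f' ∈ Th P (e + e') (c * c') := by
  obtain ⟨-, -, -, -, -, -, hmm, -, -, hcc, -, -⟩ := h Γ K
  rw [mem_Th] at hf hf' ⊢
  rw [map_mul, hf, hf', hcc, map_mul, neg_add, ← hmm]
  ring

theorem mono_mem_Th (h : S_rules) (P : Γ) (k : ℤ) : (mono k : Ent Γ K) ∈ Th P 0 (qq P ^ k) := by
  obtain ⟨-, -, -, -, -, -, -, hm0, hsm, -, -, -⟩ := h Γ K
  rw [mem_Th, hsm, neg_zero, hm0, mul_one]

theorem Th_zero (h : S_rules) {P : Γ} (hP : Big P) (c : Pt Γ K) (f : Ent Γ K) (hf : f ∈ Th P 0 c)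
    (hf0 : f ≠ 0) : ∃ (k : ℤ) (z : HG Γ K), c = qq P ^ k ∧ z ≠ 0 ∧ f = cst z * mono k := by
  obtain ⟨-, hext, -, hcst, hmono, -, -, -, -, -, -, -⟩ := h Γ K
  rw [mem_Th_iff h] at hf
  simp only [add_zero] at hf
  have hex : ∃ k, co f k ≠ 0 := by
    by_contra hn
    push Not at hn
    apply hf0
    apply hext
    intro m
    rw [hn, co_zero]
  obtain ⟨k, hk⟩ := hex
  have hck : c = qq P ^ k := cc_inj (mul_right_cancel₀ hk (hf k))
  refine ⟨k, co f k, hck, hk, ?_⟩
  apply hext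
  intro m
  have h1 : (mono k : Ent Γ K) = mono k * 1 := (mul_one _).symm
  rw [hcst, h1, hmono, co_one]
  by_cases hm : m = k
  · rw [if_pos (by rw [hm, sub_self]), hm, mul_one]
  · rw [if_neg (fun h' => hm (sub_eq_zero.1 h')), mul_zero]
    by_contra hne
    have h2 : c = qq P ^ m := cc_inj (mul_right_cancel₀ hne (hf m))
    exact hm (qq_pow_inj (K := K) (big_pos hP) (h2.symm.trans hck))

/-- going `k` steps down -/
theorem step_down (h : S_rules) (P : Γ) (d : ℤ) (c : Pt Γ K) (f : Ent Γ K)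
    (hf : f ∈ Th P (-d) c) (r : ℤ) (a : Γ) (k : ℤ) (x : K)
    (hx : (co f (r - k * d)).coeff a = x) :
    (co f (r - (k + 1) * d)).coeff (a + (r - k * d) • P - c.v) = (c.2⁻¹ : Kˣ) * x := by
  rw [mem_Th_iff h] at hf
  have h1 := hf (r - k * d)
  have h2 : r - k * d + -d = r - (k + 1) * d := by ring
  rw [h2] at h1
  have h3 := congrArg (fun z : HG Γ K => z.coeff (a + (r - k * d) • P)) h1
  rw [cc_qq_pow, cc] at h3
  have e1 : a + (r - k * d) • P = (a + (r - k * d) • P - c.v) + c.v := by abel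
  rw [HahnSeries.coeff_single_mul_add, one_mul, hx, e1, HahnSeries.coeff_single_mul_add] at h3
  rw [← h3, ← mul_assoc, Units.inv_mul, one_mul]

theorem cf_circle (f : Ent Γ K) (s a : Γ) (m : ℤ) (hc : (co f m).coeff a ≠ 0) :
    a + m • s ∈ (f.1 s).support := by
  rw [HahnSeries.mem_support]
  intro h0
  apply hc
  rw [coeff_co]
  have h1 := Ent.rel f s (a + m • s) m
  rw [add_sub_cancel_right] at h1
  rw [← h1, cf, h0]
  rfl

theorem Th_neg (h : S_rules) {P : Γ} (hP : Big P) (e : ℤ) (c : Pt Γ K) (he : e < 0) :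
    Th P e c = ⊥ := by
  obtain ⟨d, rfl⟩ : ∃ d : ℤ, e = -d := ⟨-e, by ring⟩
  have hd : 0 < d := by linarith
  have hP0 := big_pos hP
  obtain ⟨-, hext, -, -, -, -, -, -, -, -, -, -⟩ := h Γ K
  rw [eq_bot_iff]
  intro f hf
  rw [Submodule.mem_bot]
  apply hext
  intro r
  rw [co_zero]
  by_contra hr
  obtain ⟨a, ha⟩ : ∃ a, (co f r).coeff a ≠ 0 := by
    by_contra hn
    push Not at hn
    apply hr
    ext a
    rw [hn]
    rfl
  set s : Γ := |r • P - c.v| + P with hs
  -- exponents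
  have key : ∀ k : ℕ, ∃ b : Γ, (co f (r - (k : ℤ) * d)).coeff b ≠ 0 ∧
      b = a + ((k : ℤ) * r - d * ((k : ℤ) * ((k : ℤ) - 1) / 2)) • P - (k : ℤ) • c.v := by
    intro k
    induction k with
    | zero =>
      refine ⟨a, ?_, ?_⟩
      · rw [Nat.cast_zero, zero_mul, sub_zero]
        exact ha
      · simp
    | succ k ih =>
      obtain ⟨b, hb, hb'⟩ := ih
      refine ⟨b + (r - (k : ℤ) * d) • P - c.v, ?_, ?_⟩
      · have := step_down h P d c f hf r b (k : ℤ) _ rfl
        rw [Nat.cast_succ, this]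
        exact mul_ne_zero (Units.ne_zero _) hb
      · rw [hb', Nat.cast_succ, tri_succ]
        module
  have hmem : ∀ k : ℕ, (a + ((k : ℤ) * r - d * ((k : ℤ) * ((k : ℤ) - 1) / 2)) • P - (k : ℤ) • c.v) +
      (r - (k : ℤ) * d) • s ∈ (f.1 s).support := by
    intro k
    obtain ⟨b, hb, hb'⟩ := key k
    rw [← hb']
    exact cf_circle f s b _ hb
  have hwf := (f.1 s).isWF_support
  rw [Set.isWF_iff_no_descending_seq] at hwf
  refine hwf _ ?_ hmem
  apply strictAnti_nat_of_succ_lt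
  intro k
  rw [Nat.cast_succ, tri_succ]
  have hs1 : r • P - c.v < s := by
    rw [hs]
    exact lt_of_le_of_lt (le_abs_self _) (lt_add_of_pos_right _ hP0)
  have hs2 : 0 ≤ s := add_nonneg (abs_nonneg _) hP0.le
  have hs3 : s ≤ d • s := by
    have := zsmul_le_zsmul_left hs2 (show (1 : ℤ) ≤ d by linarith)
    rwa [one_zsmul] at this
  have hk : (0 : Γ) ≤ (d * (k : ℤ)) • P := zsmul_nonneg hP0.le (by positivity)
  have e1 : a + (((k : ℤ) + 1) * r - d * ((k : ℤ) * ((k : ℤ) - 1) / 2 + k)) • P -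
      ((k : ℤ) + 1) • c.v + (r - ((k : ℤ) + 1) * d) • s =
      (a + ((k : ℤ) * r - d * ((k : ℤ) * ((k : ℤ) - 1) / 2)) • P - (k : ℤ) • c.v +
      (r - (k : ℤ) * d) • s) + ((r • P - c.v) - (d * (k : ℤ)) • P - d • s) := by
    module
  rw [e1]
  have : (r • P - c.v) - (d * (k : ℤ)) • P - d • s < 0 := by
    have h1 : r • P - c.v < d • s := lt_of_lt_of_le hs1 hs3
    have h2 : (r • P - c.v) - (d * (k : ℤ)) • P ≤ r • P - c.v := sub_le_self _ hk
    rw [sub_neg]
    exact lt_of_le_of_lt h2 h1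
  exact add_lt_of_neg_right _ this

/-- exponents of the basis functions -/
def wt (P : Γ) (e r : ℤ) (c : Pt Γ K) (m : ℤ) : Γ :=
  ((m - r) / e * r + e * ((m - r) / e * ((m - r) / e - 1) / 2)) • P - ((m - r) / e) • c.v

/-- coefficients of the basis functions -/
def ka (e r : ℤ) (c : Pt Γ K) (m : ℤ) : K :=
  if e ∣ m - r then ((c.2 ^ (-((m - r) / e)) : Kˣ) : K) else 0

theorem wt_fin {P : Γ} (hP : Big P) (e r : ℤ) (he : 0 < e) (c : Pt Γ K) (s a : Γ) :
    {m : ℤ | wt P e r c m + m • s ≤ a}.Finite := by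
  have h1 : ∀ j : ℤ, {k : ℤ | (e * (k * (k - 1) / 2)) • P + k • (r • P - c.v + e • s) ≤
      a - (r + j) • s}.Finite := fun j => big_mul hP e he _ _
  refine ((Set.finite_Ico (0 : ℤ) e).biUnion fun j _ => (h1 j).image fun k => r + k * e + j).subset ?_
  intro m hm
  simp only [Set.mem_ofPred_eq] at hm
  rw [Set.mem_iUnion₂]
  refine ⟨(m - r) % e, ⟨Int.emod_nonneg _ he.ne', Int.emod_lt_of_pos _ he⟩, (m - r) / e, ?_, ?_⟩
  · simp only [Set.mem_ofPred_eq]
    rw [le_sub_iff_add_le]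
    refine le_trans (le_of_eq ?_) hm
    have hm' : m = r + (m - r) / e * e + (m - r) % e := by
      have := Int.mul_ediv_add_emod (m - r) e
      linarith
    rw [wt]
    generalize (m - r) / e = k at *
    generalize (m - r) % e = j at *
    rw [hm']
    module
  · have := Int.mul_ediv_add_emod (m - r) e
    show r + (m - r) / e * e + (m - r) % e = m
    linarith

/-- the basis functions -/
noncomputable def bs {P : Γ} (hP : Big P) (e r : ℤ) (he : 0 < e) (c : Pt Γ K) : Ent Γ K :=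
  mkE (ka e r c) (wt P e r c) (wt_fin hP e r he c)

theorem bs_mem (h : S_rules) {P : Γ} (hP : Big P) (e r : ℤ) (he : 0 < e) (c : Pt Γ K) :
    bs hP e r he c ∈ Th P e c := by
  rw [mem_Th_iff h]
  intro m
  rw [bs, co_mkE, co_mkE, cc_qq_pow, cc, HahnSeries.single_mul_single, HahnSeries.single_mul_single]
  have h1 : m + e - r = (m - r) + e * 1 := by ring
  have h2 : (m + e - r) / e = (m - r) / e + 1 := by
    rw [h1, Int.add_mul_ediv_left _ _ he.ne']
  by_cases hd : e ∣ m - r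
  · have hd' : e ∣ m + e - r := by rw [h1]; exact dvd_add hd (dvd_mul_right _ _)
    obtain ⟨k, hk⟩ := hd
    have hk' : (m - r) / e = k := by rw [hk, Int.mul_ediv_cancel_left _ he.ne']
    have hm : m = r + e * k := by linarith
    congr 1
    · refine congrArg _ ?_
      rw [wt, wt, h2, hk', tri_succ, hm]
      module
    · rw [ka, ka, if_pos hd', if_pos ⟨k, hk⟩, h2, hk', one_mul, ← Units.val_mul]
      congr 1
      rw [neg_add, zpow_add, zpow_neg_one, mul_comm, inv_mul_cancel_right]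
  · have hd' : ¬ e ∣ m + e - r := by
      intro hh
      apply hd
      rw [h1] at hh
      exact (dvd_add_left (dvd_mul_right _ _)).1 hh
    rw [ka, ka, if_neg hd', if_neg hd, mul_zero, mul_zero, HahnSeries.single_eq_zero,
      HahnSeries.single_eq_zero]

theorem co_bs {P : Γ} (hP : Big P) (e : ℤ) (he : 0 < e) (c : Pt Γ K) (r r' : ℤ) (hr : 0 ≤ r)
    (hr1 : r < e) (hr' : 0 ≤ r') (hr1' : r' < e) :
    co (bs hP e r he c) r' = if r' = r then 1 else 0 := by
  rw [bs, co_mkE]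
  by_cases h : r' = r
  · rw [if_pos h, h, wt, ka, sub_self, if_pos (dvd_zero _), Int.zero_ediv]
    simp
  · rw [if_neg h, ka, if_neg, HahnSeries.single_eq_zero]
    intro hd
    apply h
    have h1 : |r' - r| < e := by
      rw [abs_lt]
      constructor
      · linarith
      · linarith
    have := Int.eq_zero_of_abs_lt_dvd hd h1
    linarith

theorem per_iff {F : ℤ → Prop} {e : ℤ} (hF : ∀ m, F (m + e) ↔ F m) (m k : ℤ) :
    F (m + k * e) ↔ F m := by
  induction k with
  | zero => rw [zero_mul, add_zero]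
  | succ k ih =>
    have : m + ((k : ℤ) + 1) * e = (m + k * e) + e := by ring
    rw [this, hF, ih]
  | pred k ih =>
    have : m + -(k : ℤ) * e = (m + (-(k : ℤ) - 1) * e) + e := by ring
    rw [← ih, this, hF]

theorem eq_zero_of_co (h : S_rules) (P : Γ) (e : ℤ) (he : 0 < e) (c : Pt Γ K) (f : Ent Γ K)
    (hf : f ∈ Th P e c) (h0 : ∀ r, 0 ≤ r → r < e → co f r = 0) : f = 0 := by
  rw [mem_Th_iff h] at hf
  obtain ⟨-, hext, -, -, -, -, -, -, -, -, -, hc0⟩ := h Γ K
  apply hext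
  intro m
  rw [co_zero]
  have hF : ∀ m, co f (m + e) = 0 ↔ co f m = 0 := by
    intro m
    have h1 := hf m
    constructor
    · intro h2
      rw [h2, mul_zero] at h1
      exact (mul_eq_zero.1 h1.symm).resolve_left (hc0 _)
    · intro h2
      rw [h2, mul_zero] at h1
      exact (mul_eq_zero.1 h1).resolve_left (hc0 _)
  have h1 := per_iff (F := fun m => co f m = 0) hF (m % e) (m / e)
  have h2 : m % e + m / e * e = m := by
    have := Int.mul_ediv_add_emod m e
    linarith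
  simp only [h2] at h1
  exact h1.2 (h0 _ (Int.emod_nonneg _ he.ne') (Int.emod_lt_of_pos _ he))

/-- the first coefficients -/
noncomputable def fc (h : S_rules) (P : Γ) (e : ℕ) (c : Pt Γ K) :
    Th P (e : ℤ) c →ₗ[HG Γ K] (Fin e → HG Γ K) where
  toFun f r := co f.1 (r : ℕ)
  map_add' f g := by
    obtain ⟨-, -, hadd, -, -, -, -, -, -, -, -, -⟩ := h Γ K
    funext r
    exact hadd _ _ _
  map_smul' z f := by
    obtain ⟨-, -, -, hcst, -, -, -, -, -, -, -, -⟩ := h Γ K
    funext r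
    show co (z • f.1) _ = z * co f.1 _
    rw [smul_def', hcst]

theorem co_sum (h : S_rules) {ι : Type} (t : Finset ι) (g : ι → Ent Γ K) (m : ℤ) :
    co (∑ i ∈ t, g i) m = ∑ i ∈ t, co (g i) m := by
  classical
  obtain ⟨-, -, hadd, -, -, -, -, -, -, -, -, -⟩ := h Γ K
  induction t using Finset.induction_on with
  | empty => rw [Finset.sum_empty, Finset.sum_empty, co_zero]
  | insert i t hi ih => rw [Finset.sum_insert hi, Finset.sum_insert hi, hadd, ih]

theorem fc_bij (h : S_rules) {P : Γ} (hP : Big P) (e : ℕ) (he : 0 < e) (c : Pt Γ K) :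
    Function.Bijective (fc h P e c) := by
  have he' : (0 : ℤ) < e := by exact_mod_cast he
  constructor
  · intro f g hfg
    apply Subtype.ext
    rw [← sub_eq_zero]
    refine eq_zero_of_co h P e he' c (f.1 - g.1) (Submodule.sub_mem _ f.2 g.2) fun r hr hr1 => ?_
    obtain ⟨r, rfl⟩ := Int.eq_ofNat_of_zero_le hr
    obtain ⟨-, -, hadd, -, -, -, -, -, -, -, -, -⟩ := h Γ K
    have h1 := hadd (f.1 - g.1) g.1 r
    rw [sub_add_cancel] at h1
    have h2 : co f.1 (r : ℤ) = co g.1 (r : ℤ) := congrFun hfg ⟨r, by exact_mod_cast hr1⟩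
    rw [h2] at h1
    exact left_eq_add.1 (h1.trans (add_comm _ _))
  · intro z
    refine ⟨⟨∑ i : Fin e, z i • bs hP e ((i : ℕ) : ℤ) he' c, Submodule.sum_mem _ fun i _ =>
      Submodule.smul_mem _ _ (bs_mem h hP _ _ _ _)⟩, ?_⟩
    funext r
    show co (∑ i : Fin e, z i • bs hP e ((i : ℕ) : ℤ) he' c) ((r : ℕ) : ℤ) = z r
    rw [co_sum h]
    obtain ⟨-, -, -, hcst, -, -, -, -, -, -, -, -⟩ := h Γ K
    rw [Finset.sum_eq_single r]
    · rw [smul_def', hcst, co_bs hP e he' c _ _ (Int.natCast_nonneg _) (by exact_mod_cast r.2)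
        (Int.natCast_nonneg _) (by exact_mod_cast r.2), if_pos rfl, mul_one]
    · intro i _ hi
      rw [smul_def', hcst, co_bs hP e he' c _ _ (Int.natCast_nonneg _) (by exact_mod_cast i.2)
        (Int.natCast_nonneg _) (by exact_mod_cast r.2), if_neg, mul_zero]
      intro hh
      apply hi
      apply Fin.ext
      exact_mod_cast hh.symm
    · intro hh
      exact absurd (Finset.mem_univ _) hh

theorem finrank_Th (h : S_rules) {P : Γ} (hP : Big P) (e : ℕ) (c : Pt Γ K) (he : 0 < e) :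
    Module.finrank (HG Γ K) (Th P (e : ℤ) c) = e := by
  rw [(LinearEquiv.ofBijective (fc h P e c) (fc_bij h hP e he c)).finrank_eq, Module.finrank_fin_fun]

end

theorem th (h : S_rules) : S_Th := by
  intro Γ K _ _ _ _ P hP
  exact ⟨big_pos hP, big_add hP, mem_Th_iff h P, mul_mem_Th h P, fun e c he => finrank_Th h hP e c he,
    fun e c he => Th_neg h hP e c he, mono_mem_Th h P, fun c f hf hf0 => Th_zero h hP c f hf hf0⟩

end Pool.Agent.H124.TH
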